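import Pool.Agent.P.MP_339e98_lc.F.Main

/-! No finite family of chains is complete for a logic between MTL and IMTL. -/

set_option autoImplicit false

namespace Pool.Agent.Results.MP_339e98_lc.NoFiniteFamily

open Pool.Agent.P.MP_339e98_lc Pool.Agent.P.MP_339e98_lc.F

universe u

theorem result (k : ℕ) (A : Fin k → Type u) [∀ i, MTLAlgebra (A i)]
    (hA : ∀ i, IsChainOf MTL (A i)) :
    ∃ φ, OneVar φ ∧ ¬ Provable IMTL φ ∧ ∀ i, Taut (A i) φ :=
  no_finite k A hA

end Pool.Agent.Results.MP_339e98_lc.NoFiniteFamily
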