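import Pool.Agent.P.MP_339e98_lc.Defs
import Pool.Agent.P.MP_339e98_lc.Neg
import Pool.Agent.P.MP_339e98_lc.Pos

namespace Pool.Agent.Results.MP_339e98_lc.SCC

universe u

/-- MTL and IMTL fail single chain completeness; PiMTL enjoys it. -/
theorem result :
    ¬ Pool.Agent.P.MP_339e98_lc.SCC.{u} Pool.Agent.P.MP_339e98_lc.MTL ∧
    ¬ Pool.Agent.P.MP_339e98_lc.SCC.{u} Pool.Agent.P.MP_339e98_lc.IMTL ∧
    Pool.Agent.P.MP_339e98_lc.SCC.{u} Pool.Agent.P.MP_339e98_lc.PiMTL :=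
  ⟨Pool.Agent.P.MP_339e98_lc.not_scc_MTL, Pool.Agent.P.MP_339e98_lc.not_scc_IMTL,
    Pool.Agent.P.MP_339e98_lc.scc_Pi⟩

end Pool.Agent.Results.MP_339e98_lc.SCC
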